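import Pool.Agent.helper65.YFinal

open MeasureTheory
open scoped ContDiff

namespace Pool.Agent.Results.MP_73f72c_gt.NotAchieved

open Pool.Agent.helper65.Y

/-- Smooth functions on the closed 3-manifold `M_c = (ℝ³ ∖ {0}) / ⟨x ↦ c x⟩ ≅ S¹ × S²`,
seen on the cover `ℝ³ ∖ {0}`: smooth functions invariant under `x ↦ c x`
(the value at `0` is irrelevant). -/
def SmoothOnM (c : ℝ) (u : E3 → ℝ) : Prop :=
  ContDiffOn ℝ ∞ u {0}ᶜ ∧ ∀ x, x ≠ 0 → u (c • x) = u x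

/-- The conformal class `[g₀] = {e^{-2u} g₀ : u ∈ C^∞(M_c)}` (metrics on `M_c` are written as
dilation invariant metrics on the cover; values at `0` are irrelevant). -/
def confClass (c : ℝ) : Set (E3 → Matrix (Fin 3) (Fin 3) ℝ) :=
  {g | ∃ u : E3 → ℝ, SmoothOnM c u ∧ ∀ x, x ≠ 0 → g x = Real.exp (-2 * u x) • g0 x}

/-- `C₁([g₀])`: the metrics of the conformal class with `σ₁(g) > 0` everywhere. -/
def C1 (c : ℝ) : Set (E3 → Matrix (Fin 3) (Fin 3) ℝ) :=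
  {g | g ∈ confClass c ∧ ∀ x, x ≠ 0 → 0 < sig1 g x}

/-- `vol(g)`. -/
noncomputable def vol (c : ℝ) (g : E3 → Matrix (Fin 3) (Fin 3) ℝ) : ℝ :=
  ∫ x in Dom c, dens g x

/-- `∫_M σ₁(g) dv(g)`. -/
noncomputable def totSig1 (c : ℝ) (g : E3 → Matrix (Fin 3) (Fin 3) ℝ) : ℝ :=
  ∫ x in Dom c, sig1 g x * dens g x

/-- `∫_M σ₂(g) dv(g)`. -/
noncomputable def totSig2 (c : ℝ) (g : E3 → Matrix (Fin 3) (Fin 3) ℝ) : ℝ :=
  ∫ x in Dom c, sig2 g x * dens g x

/-- The functional `E(g) = vol(g) ∫σ₂ / (∫σ₁)²`. -/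
noncomputable def energy (c : ℝ) (g : E3 → Matrix (Fin 3) (Fin 3) ℝ) : ℝ :=
  vol c g * totSig2 c g / totSig1 c g ^ 2

/-- `Ỹ([g₀]) = sup_{g ∈ C₁([g₀])} E(g)`. -/
noncomputable def Ytilde (c : ℝ) : ℝ := sSup (energy c '' C1 c)

lemma isConf_of {g : E3 → Matrix (Fin 3) (Fin 3) ℝ} {u : E3 → ℝ}
    (hg : ∀ x, x ≠ 0 → g x = Real.exp (-2 * u x) • g0 x) :
    IsConf g (fun x => u x + Real.log ‖x‖) := by
  intro x hx
  rw [hg x hx]
  unfold g0
  rw [smul_smul]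
  congr 1
  have hn : 0 < ‖x‖ := norm_pos_iff.2 hx
  have : Real.exp (-2 * Real.log ‖x‖) = (‖x‖ ^ 2)⁻¹ := by
    rw [neg_mul, Real.exp_neg, two_mul, Real.exp_add, Real.exp_log hn, sq]
  rw [← this, ← Real.exp_add]
  congr 1; ring

lemma LH_of {c : ℝ} (hc : 1 < c) {u : E3 → ℝ} (hu : SmoothOnM c u) :
    LH c (fun x => u x + Real.log ‖x‖) := by
  have hc0 : 0 < c := by linarith
  refine ⟨Sm.add hu.1 (Sm.norm.log fun x hx => norm_ne_zero_iff.2 hx), fun x hx => ?_⟩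
  simp only [hu.2 x hx]
  rw [norm_smul, Real.norm_of_nonneg hc0.le, Real.log_mul hc0.ne' (norm_ne_zero_iff.2 hx)]
  ring

lemma u_of {c : ℝ} (hc : 1 < c) {w : E3 → ℝ} (hw : LH c w) :
    SmoothOnM c (fun x => w x - Real.log ‖x‖) := by
  have hc0 : 0 < c := by linarith
  refine ⟨Sm.sub hw.sm (Sm.norm.log fun x hx => norm_ne_zero_iff.2 hx), fun x hx => ?_⟩
  simp only [hw.hom x hx]
  rw [norm_smul, Real.norm_of_nonneg hc0.le, Real.log_mul hc0.ne' (norm_ne_zero_iff.2 hx)]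
  ring

lemma energy_eq {c : ℝ} (hc : 1 < c) {g : E3 → Matrix (Fin 3) (Fin 3) ℝ} {w : E3 → ℝ}
    (hg : IsConf g w) (hw : LH c w) :
    energy c g = Vf c w * S2f c w / S1f c w ^ 2 := by
  have h1 : vol c g = Vf c w :=
    setIntegral_congr_fun Dom_meas fun x hx => hg.dens (ne_of_mem_Dom hx)
  have h2 : totSig1 c g = S1f c w := by
    unfold S1f
    rw [← int1' hc hw]
    exact setIntegral_congr_fun Dom_meas fun x hx => hg.sig1_dens hw.sm (ne_of_mem_Dom hx)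
  have h3 : totSig2 c g = S2f c w := by
    unfold S2f
    rw [← int2 hc hw]
    exact setIntegral_congr_fun Dom_meas fun x hx => hg.sig2_dens hw.sm (ne_of_mem_Dom hx)
  unfold energy
  rw [h1, h2, h3]

lemma pos_iff {g : E3 → Matrix (Fin 3) (Fin 3) ℝ} {w : E3 → ℝ} (hg : IsConf g w) (hw : Sm w) :
    (∀ x, x ≠ 0 → 0 < sig1 g x) ↔ Ps w := by
  constructor
  · intro h x hx
    have := h x hx
    rw [hg.sig1 hw hx] at this
    exact (pos_iff_pos_of_mul_pos this).1 (Real.exp_pos _)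
  · intro h x hx
    rw [hg.sig1 hw hx]
    exact mul_pos (Real.exp_pos _) (h x hx)

lemma exists_w {c : ℝ} (hc : 1 < c) {g : E3 → Matrix (Fin 3) (Fin 3) ℝ} (hg : g ∈ C1 c) :
    ∃ w, LH c w ∧ Ps w ∧ energy c g = Vf c w * S2f c w / S1f c w ^ 2 := by
  obtain ⟨⟨u, hu, hgu⟩, hpos⟩ := hg
  have h1 := isConf_of hgu
  have h2 := LH_of hc hu
  exact ⟨_, h2, (pos_iff h1 h2.sm).1 hpos, energy_eq hc h1 h2⟩

lemma exists_g {c : ℝ} (hc : 1 < c) {w : E3 → ℝ} (hw : LH c w) (hp : Ps w) :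
    ∃ g ∈ C1 c, energy c g = Vf c w * S2f c w / S1f c w ^ 2 := by
  have hu := u_of hc hw
  have h1 : IsConf (fun x => Real.exp (-2 * (w x - Real.log ‖x‖)) • g0 x) w := by
    have := isConf_of (g := fun x => Real.exp (-2 * (w x - Real.log ‖x‖)) • g0 x)
      (u := fun x => w x - Real.log ‖x‖) (fun x _ => rfl)
    simpa using this
  exact ⟨_, ⟨⟨_, hu, fun x _ => rfl⟩, (pos_iff h1 hw.sm).2 hp⟩, energy_eq hc h1 hw⟩

lemma g0_conf : IsConf g0 (fun x => Real.log ‖x‖) := by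
  have := isConf_of (g := g0) (u := fun _ => 0) (fun x _ => by simp)
  simpa using this

lemma log_sm : Sm (fun x : E3 => Real.log ‖x‖) :=
  Sm.norm.log fun x hx => norm_ne_zero_iff.2 hx

lemma pd_log {x : E3} (hx : x ≠ 0) (i : Fin 3) :
    pd i (fun x : E3 => Real.log ‖x‖) x = x i * (nn x * nn x) := by
  have h1 : pd i (fun y : E3 => Real.exp (Real.log ‖y‖)) x = pd i (fun y => ‖y‖) x :=
    pd_congr (fun y hy => Real.exp_log (norm_pos_iff.2 hy)) hx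
  rw [pd_exp log_sm hx, pd_norm hx, Real.exp_log (norm_pos_iff.2 hx)] at h1
  have h2 := nn_mul_norm hx
  linear_combination nn x * h1 - pd i (fun x : E3 => Real.log ‖x‖) x * h2

lemma pd_pd_log {x : E3} (hx : x ≠ 0) (i : Fin 3) :
    pd i (pd i (fun x : E3 => Real.log ‖x‖)) x = nn x ^ 2 - 2 * x i ^ 2 * nn x ^ 4 := by
  have h1 : pd i (pd i (fun x : E3 => Real.log ‖x‖)) x = pd i (fun x => x i * (nn x * nn x)) x :=
    pd_congr (fun y hy => pd_log hy i) hx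
  rw [h1, pd_mul (Sm.coord i) (nn_sm.mul nn_sm) hx, pd_mul nn_sm nn_sm hx, pd_nn hx, pd_coord]
  simp only [if_true]
  ring

lemma g0_Ps : Ps (fun x : E3 => Real.log ‖x‖) := by
  intro x hx
  have h := nn_sq hx
  have hn : 0 < nn x := inv_pos.2 (norm_pos_iff.2 hx)
  have e : Lap (fun x : E3 => Real.log ‖x‖) x - Q (fun x : E3 => Real.log ‖x‖) x / 2 =
      nn x ^ 2 / 2 := by
    simp only [Lap, Q, pd_log hx, pd_pd_log hx, Fin.sum_univ_three]
    linear_combination (-(5 / 2) * nn x ^ 2) * h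
  rw [e]
  positivity

lemma LH_log {c : ℝ} (hc : 1 < c) : LH c (fun x : E3 => Real.log ‖x‖) := by
  have := LH_of hc (u := fun _ => 0) ⟨contDiffOn_const, fun _ _ => rfl⟩
  simpa using this

/-- **The supremum `Ỹ` is not achieved on `S¹ × S²`.** For every `c > 1`, on the closed
3-manifold `M_c = (ℝ³ ∖ {0}) / ⟨x ↦ c x⟩ ≅ S¹ × S²` with the product metric
`g₀ = ‖x‖⁻² |dx|²`, which has positive scalar curvature, `C₁([g₀])` is nonempty, `E` is bounded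
above on it, and `E(g) < Ỹ([g₀])` for every `g ∈ C₁([g₀])`. -/
theorem result (c : ℝ) (hc : 1 < c) :
    (∀ x, x ≠ 0 → 0 < Scal g0 x) ∧ (C1 c).Nonempty ∧ BddAbove (energy c '' C1 c) ∧
      ∀ g ∈ C1 c, energy c g < Ytilde c := by
  have hbdd : ∀ E ∈ energy c '' C1 c, E ≤ -(1 / 2) := by
    rintro E ⟨g, hg, rfl⟩
    obtain ⟨w, hw, hp, he⟩ := exists_w hc hg
    have h1 := energy_bound hc hw hp
    have h2 := S1f_pos hc hw hp
    rw [he, div_le_iff₀ (by positivity)]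
    exact h1
  refine ⟨?_, ?_, ⟨_, hbdd⟩, ?_⟩
  · intro x hx
    have h1 := g0_Ps x hx
    rw [g0_conf.scal log_sm hx]
    apply mul_pos (Real.exp_pos _)
    linarith
  · obtain ⟨g, hg, _⟩ := exists_g hc (LH_log hc) g0_Ps
    exact ⟨g, hg⟩
  · intro g hg
    refine lt_of_le_of_ne (le_csSup ⟨_, hbdd⟩ ⟨g, hg, rfl⟩) fun heq => ?_
    obtain ⟨w, hw, hp, he⟩ := exists_w hc hg
    refine no_max hc hw hp fun w' hw' hp' => ?_
    obtain ⟨g', hg', he'⟩ := exists_g hc hw' hp'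
    rw [← he, ← he', heq]
    exact le_csSup ⟨_, hbdd⟩ ⟨g', hg', rfl⟩

end Pool.Agent.Results.MP_73f72c_gt.NotAchieved
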